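import Mathlib
import Pool.Agent.H723.QP.Base

/-! Two windows of digits which are affine images of the same window. -/

set_option autoImplicit false

open Finset

namespace Pool.Agent.H723.QE

open Pool.Agent.H723.QP

/-- two windows of digits at the places `p`, `p'` which are affine images of the same word -/
theorem dep_two (b : ℕ) (ξ : ℝ) (m p p' : ℕ) (hpp : p + 2 ≤ p') (C : ℝ)
    (hC : ((p' + 1 : ℕ) : ℝ) ≤ C * m) (W : ℕ → ℝ) (a c a' c' : ℝ)
    (h : ∀ i ≤ m, (dg b ξ (p + i + 1) : ℝ) = a + c * W i)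
    (h' : ∀ i ≤ m, (dg b ξ (p' + i + 1) : ℝ) = a' + c' * W i) : DepR b ξ 4 C m := by
  refine ⟨4, le_rfl, ![p, p + 1, p', p' + 1], ?_, ?_, ?_⟩
  · intro x y hxy
    fin_cases x <;> fin_cases y <;> first | rfl | (exfalso; simp at hxy <;> omega)
  · have key : ∀ x : ℕ, x ≤ p' + 1 → (x : ℝ) ≤ C * m := fun x hx =>
      le_trans (by exact_mod_cast hx) hC
    intro j
    fin_cases j
    · exact key p (by omega)
    · exact key (p + 1) (by omega)
    · exact key p' (by omega)
    · exact key (p' + 1) (by omega)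
  · rw [Fintype.not_linearIndependent_iff]
    have e1 : ∀ i : Fin m, (dg b ξ (p + 1 + i + 1) : ℝ) = a + c * W (i + 1) := by
      intro i
      have := h (i + 1) (by have := i.2; omega)
      rw [← this]
      congr 2
      omega
    have e2 : ∀ i : Fin m, (dg b ξ (p' + 1 + i + 1) : ℝ) = a' + c' * W (i + 1) := by
      intro i
      have := h' (i + 1) (by have := i.2; omega)
      rw [← this]
      congr 2
      omega
    have e3 : ∀ i : Fin m, (dg b ξ (p + i + 1) : ℝ) = a + c * W i := fun i =>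
      h i (by have := i.2; omega)
    have e4 : ∀ i : Fin m, (dg b ξ (p' + i + 1) : ℝ) = a' + c' * W i := fun i =>
      h' i (by have := i.2; omega)
    by_cases h0 : c = 0 ∧ c' = 0
    · refine ⟨![-1, 1, 0, 0], ?_, 1, ?_⟩
      · funext i
        simp only [Fin.sum_univ_four, Finset.sum_apply, Pi.smul_apply, smul_eq_mul,
          Pi.zero_apply]
        show (-1 : ℝ) * (dg b ξ (p + i + 1) : ℝ) + 1 * (dg b ξ (p + 1 + i + 1) : ℝ) +
          0 * (dg b ξ (p' + i + 1) : ℝ) + 0 * (dg b ξ (p' + 1 + i + 1) : ℝ) = 0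
        rw [e3 i, e1 i, h0.1]
        ring
      · show (1 : ℝ) ≠ 0
        exact one_ne_zero
    · have h1 : ∑ j : Fin 4, (![-c', c', c, -c] : Fin 4 → ℝ) j •
          (fun (i : Fin m) => (dg b ξ ((![p, p + 1, p', p' + 1] : Fin 4 → ℕ) j + i + 1) : ℝ)) = 0 := by
        funext i
        simp only [Fin.sum_univ_four, Finset.sum_apply, Pi.smul_apply, smul_eq_mul,
          Pi.zero_apply]
        show (-c') * (dg b ξ (p + i + 1) : ℝ) + c' * (dg b ξ (p + 1 + i + 1) : ℝ) +
          c * (dg b ξ (p' + i + 1) : ℝ) + (-c) * (dg b ξ (p' + 1 + i + 1) : ℝ) = 0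
        rw [e3 i, e1 i, e4 i, e2 i]
        ring
      by_cases hc : c = 0
      · have hc' : c' ≠ 0 := fun h2 => h0 ⟨hc, h2⟩
        exact ⟨![-c', c', c, -c], h1, 1, hc'⟩
      · exact ⟨![-c', c', c, -c], h1, 2, hc⟩

/-- a window of digits which is an affine image of an earlier one -/
theorem dep_one (b : ℕ) (ξ : ℝ) (m p d : ℕ) (hd1 : 1 ≤ d) (hd : d ≤ p) (C : ℝ)
    (hC : ((p + 1 : ℕ) : ℝ) ≤ C * m) (a c : ℝ)
    (h : ∀ i ≤ m, (dg b ξ (p + i + 1) : ℝ) = a + c * (dg b ξ (p - d + i + 1) : ℝ)) :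
    DepR b ξ 4 C m := by
  have key : ∀ x : ℕ, x ≤ p + 1 → (x : ℝ) ≤ C * m := fun x hx =>
    le_trans (by exact_mod_cast hx) hC
  have e3 : ∀ i : Fin m, (dg b ξ (p + i + 1) : ℝ) = a + c * (dg b ξ (p - d + i + 1) : ℝ) :=
    fun i => h i (by have := i.2; omega)
  have e1 : ∀ i : Fin m, (dg b ξ (p + 1 + i + 1) : ℝ) =
      a + c * (dg b ξ (p - d + 1 + i + 1) : ℝ) := by
    intro i
    have h1 := h (i + 1) (by have := i.2; omega)
    have h2 : p + 1 + (i : ℕ) + 1 = p + ((i : ℕ) + 1) + 1 := by omega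
    have h3 : p - d + 1 + (i : ℕ) + 1 = p - d + ((i : ℕ) + 1) + 1 := by omega
    rw [h2, h3]
    exact h1
  rcases Nat.lt_or_ge 1 d with hd2 | hd2
  · refine ⟨4, le_rfl, ![p - d, p - d + 1, p, p + 1], ?_, ?_, ?_⟩
    · intro x y hxy
      fin_cases x <;> fin_cases y <;> first | rfl | (exfalso; simp at hxy <;> omega)
    · intro j
      fin_cases j
      · exact key (p - d) (by omega)
      · exact key (p - d + 1) (by omega)
      · exact key p (by omega)
      · exact key (p + 1) (by omega)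
    · rw [Fintype.not_linearIndependent_iff]
      refine ⟨![c, -c, -1, 1], ?_, 3, ?_⟩
      · funext i
        simp only [Fin.sum_univ_four, Finset.sum_apply, Pi.smul_apply, smul_eq_mul,
          Pi.zero_apply]
        show c * (dg b ξ (p - d + i + 1) : ℝ) + (-c) * (dg b ξ (p - d + 1 + i + 1) : ℝ) +
          (-1) * (dg b ξ (p + i + 1) : ℝ) + 1 * (dg b ξ (p + 1 + i + 1) : ℝ) = 0
        rw [e3 i, e1 i]
        ring
      · show (1 : ℝ) ≠ 0
        exact one_ne_zero
  · have hd3 : d = 1 := by omega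
    subst hd3
    refine ⟨3, by norm_num, ![p - 1, p, p + 1], ?_, ?_, ?_⟩
    · intro x y hxy
      fin_cases x <;> fin_cases y <;> first | rfl | (exfalso; simp at hxy <;> omega)
    · intro j
      fin_cases j
      · exact key (p - 1) (by omega)
      · exact key p (by omega)
      · exact key (p + 1) (by omega)
    · rw [Fintype.not_linearIndependent_iff]
      refine ⟨![c, -(1 + c), 1], ?_, 2, ?_⟩
      · funext i
        have h4 : p - 1 + 1 = p := by omega
        have h5 := e1 i
        rw [h4] at h5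
        simp only [Fin.sum_univ_three, Finset.sum_apply, Pi.smul_apply, smul_eq_mul,
          Pi.zero_apply]
        show c * (dg b ξ (p - 1 + i + 1) : ℝ) + (-(1 + c)) * (dg b ξ (p + i + 1) : ℝ) +
          1 * (dg b ξ (p + 1 + i + 1) : ℝ) = 0
        have h6 := e3 i
        linear_combination h5 - h6
      · show (1 : ℝ) ≠ 0
        exact one_ne_zero

end Pool.Agent.H723.QE
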