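import Mathlib
import Pool.Agent.H723.QP.W3

/-! The sum over the scales. -/

set_option autoImplicit false

open Finset

namespace Pool.Agent.H723.QE

open Pool.Agent.H723.QP

theorem sum_scales (ρ N : ℕ) (hN0 : N ≠ 0) (X B Er : Finset ℕ)
    (hX : ∀ j ∈ Finset.Ico (Nat.log 2 N / 2) (Nat.log 2 N), j ∉ X →
      2 ^ ρ ≤ 8 * (#{x ∈ B | 2 ^ j ≤ x ∧ x < 2 ^ (j + 1)} +
        #{x ∈ Er | 2 ^ (j - ρ - 1) ≤ x ∧ x < 2 ^ (j + 1)})) :
    (Nat.log 2 N - Nat.log 2 N / 2) * 2 ^ ρ ≤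
      #X * 2 ^ ρ + 8 * (#B + (ρ + 2) * #Er) := by
  classical
  obtain ⟨J, hJ⟩ : ∃ J, J = Nat.log 2 N := ⟨_, rfl⟩
  rw [← hJ] at hX ⊢
  have key : ∀ j ∈ Finset.Ico (J / 2) J \ X, 2 ^ ρ ≤
      8 * (#{x ∈ B | 2 ^ j ≤ x ∧ x < 2 ^ (j + 1)} +
        #{x ∈ Er | 2 ^ (j - ρ - 1) ≤ x ∧ x < 2 ^ (j + 1)}) := by
    intro j hjX
    obtain ⟨hjI, hjX⟩ := Finset.mem_sdiff.mp hjX
    exact hX j hjI hjX
  have hlog : ∀ x j : ℕ, 2 ^ j ≤ x → x < 2 ^ (j + 1) → Nat.log 2 x = j := by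
    intro x j h1 h2
    exact (Nat.log_eq_iff (Or.inr ⟨by norm_num, by
      have : 0 < 2 ^ j := by positivity
      omega⟩)).2 ⟨h1, h2⟩
  have sumB : ∑ j ∈ Finset.Ico (J / 2) J \ X,
      (B.filter (fun x => 2 ^ j ≤ x ∧ x < 2 ^ (j + 1))).card ≤ #B := by
    have h1 : ∑ j ∈ Finset.Ico (J / 2) J \ X,
        (B.filter (fun x => 2 ^ j ≤ x ∧ x < 2 ^ (j + 1))).card =
        ((Finset.Ico (J / 2) J \ X).biUnion
          (fun j => B.filter (fun x => 2 ^ j ≤ x ∧ x < 2 ^ (j + 1)))).card := by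
      rw [Finset.card_biUnion]
      intro j _ j' _ hne
      rw [Function.onFun, Finset.disjoint_left]
      intro x hx hx'
      obtain ⟨-, h1, h2⟩ := Finset.mem_filter.1 hx
      obtain ⟨-, h3, h4⟩ := Finset.mem_filter.1 hx'
      exact hne ((hlog x j h1 h2).symm.trans (hlog x j' h3 h4))
    rw [h1]
    apply Finset.card_le_card
    intro x hx
    obtain ⟨j, -, hx⟩ := Finset.mem_biUnion.1 hx
    exact (Finset.mem_filter.1 hx).1
  have sumE : ∑ j ∈ Finset.Ico (J / 2) J \ X,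
      (Er.filter (fun x => 2 ^ (j - ρ - 1) ≤ x ∧ x < 2 ^ (j + 1))).card ≤ (ρ + 2) * Er.card := by
    have h1 := Finset.sum_card_bipartiteAbove_eq_sum_card_bipartiteBelow
      (s := Finset.Ico (J / 2) J \ X) (t := Er)
      (fun j x => 2 ^ (j - ρ - 1) ≤ x ∧ x < 2 ^ (j + 1))
    simp only [Finset.bipartiteAbove, Finset.bipartiteBelow] at h1
    rw [h1]
    calc _ ≤ ∑ _x ∈ Er, (ρ + 2) := by
          apply Finset.sum_le_sum
          intro x _
          have hsub : (Finset.Ico (J / 2) J \ X).filter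
              (fun j => 2 ^ (j - ρ - 1) ≤ x ∧ x < 2 ^ (j + 1)) ⊆
              Finset.Icc (Nat.log 2 x) (Nat.log 2 x + (ρ + 1)) := by
            intro j hj
            obtain ⟨hj, h2, h3⟩ := Finset.mem_filter.1 hj
            have hx0 : x ≠ 0 := by
              have : 0 < 2 ^ (j - ρ - 1) := by positivity
              omega
            have h4 : j - ρ - 1 ≤ Nat.log 2 x := Nat.le_log_of_pow_le (by norm_num) h2
            have h5 : Nat.log 2 x < j + 1 := Nat.log_lt_of_lt_pow hx0 h3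
            rw [Finset.mem_Icc]
            omega
          refine (Finset.card_le_card hsub).trans ?_
          rw [Nat.card_Icc]
          omega
      _ = (ρ + 2) * Er.card := by rw [Finset.sum_const, smul_eq_mul, Nat.mul_comm]
  have total := Finset.sum_le_sum key
  rw [Finset.sum_const, smul_eq_mul, ← Finset.mul_sum, Finset.sum_add_distrib] at total
  have hcX : J - J / 2 ≤ X.card + (Finset.Ico (J / 2) J \ X).card := by
    have h1 := Finset.le_card_sdiff X (Finset.Ico (J / 2) J)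
    rw [Nat.card_Ico] at h1
    omega
  calc (J - J / 2) * 2 ^ ρ ≤
        (X.card + (Finset.Ico (J / 2) J \ X).card) * 2 ^ ρ :=
        Nat.mul_le_mul_right _ hcX
    _ = X.card * 2 ^ ρ + (Finset.Ico (J / 2) J \ X).card * 2 ^ ρ :=
        Nat.add_mul _ _ _
    _ ≤ X.card * 2 ^ ρ + 8 * (#B + (ρ + 2) * #Er) := by
        apply Nat.add_le_add_left
        exact total.trans (Nat.mul_le_mul_left _ (Nat.add_le_add sumB sumE))

end Pool.Agent.H723.QE
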