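import Mathlib
import Pool.Agent.H723.QR.FinalR
import Pool.Agent.H723.QE.E2
import Pool.Agent.H723.QE.E3

/-! Parsings of order one, with errors: the exponent 3/2. -/

set_option autoImplicit false

open Finset

namespace Pool.Agent.H723.QE

open Pool.Agent.H723.LZ Pool.Agent.H723.QP Pool.Agent.H723.QR

/-- the main inequality -/
theorem main_e (A : ℝ) (hA : 0 ≤ A) :
    ∃ A' : ℝ, ∀ (b : ℕ) (ξ : ℝ),
      (∀ C : ℝ, 1 ≤ C → Thin (DepR b ξ 4 C) (A * (C ^ 2 * (1 + Real.log C)))) →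
      ∀ (N z : ℕ) (v : ℕ → ℝ), Brk Cp1 v N z →
      ∀ ρ : ℕ, A' * (2 ^ (2 * ρ) * ((ρ : ℝ) + 2)) ≤ Nat.log 2 N →
        2 ^ ρ * Nat.log 2 N ≤ 64 * ((ρ + 2) *
          (z + #{t ∈ Finset.range N | v t ≠ (dg b ξ (t + 1) : ℝ)})) := by
  refine ⟨4 * (64 * 4 * A) + 16, ?_⟩
  intro b ξ hthin N z v hBrk ρ hJ
  obtain ⟨B, hBc, hB⟩ := hBrk
  have hρ0 : (0 : ℝ) ≤ ρ := Nat.cast_nonneg _
  obtain ⟨J, hJd⟩ : ∃ J, J = Nat.log 2 N := ⟨_, rfl⟩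
  rw [← hJd] at hJ
  obtain ⟨x, hx⟩ : ∃ x : ℝ, x = 2 ^ (2 * ρ) * ((ρ : ℝ) + 2) := ⟨_, rfl⟩
  rw [← hx] at hJ
  have h2ρ : (1 : ℝ) ≤ 2 ^ (2 * ρ) := one_le_pow₀ (by norm_num)
  have hρx : (ρ : ℝ) + 2 ≤ x := by
    rw [hx]; exact le_mul_of_one_le_left (by linarith) h2ρ
  have hAx : 0 ≤ 64 * 4 * A * x := by
    have : 0 ≤ x := by linarith
    positivity
  have hJ1 : (2 * (ρ + 5) : ℕ) ≤ J := by
    have h1 : ((2 * (ρ + 5) : ℕ) : ℝ) ≤ J := by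
      push_cast
      have h2 : (4 * (64 * 4 * A) + 16) * x = 4 * (64 * 4 * A * x) + 16 * x := by ring
      rw [h2] at hJ
      linarith
    exact_mod_cast h1
  have hN0 : N ≠ 0 := by
    rintro rfl
    rw [Nat.log_zero_right] at hJd
    omega
  have hJN : 2 ^ J ≤ N := by rw [hJd]; exact Nat.pow_log_le_self 2 hN0
  obtain ⟨C, hC⟩ : ∃ C : ℝ, C = ((2 ^ (ρ + 3) : ℕ) : ℝ) := ⟨_, rfl⟩
  have hC' : C = 8 * 2 ^ ρ := by rw [hC]; push_cast; rw [pow_add]; ring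
  have h2ρ1 : (1 : ℝ) ≤ 2 ^ ρ := one_le_pow₀ (by norm_num)
  have hC1 : 1 ≤ C := by rw [hC']; linarith
  have hlogC : 1 + Real.log C ≤ 4 * (ρ + 2) := by
    have h1 : Real.log C = (3 + ρ) * Real.log 2 := by
      rw [hC', show (8 : ℝ) = 2 ^ 3 by norm_num, ← pow_add, Real.log_pow]
      push_cast; ring
    have h2 : Real.log 2 ≤ 1 := by
      have := Real.log_two_lt_d9; linarith
    have h3 : (3 + (ρ : ℝ)) * Real.log 2 ≤ (3 + ρ) * 1 :=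
      mul_le_mul_of_nonneg_left h2 (by linarith)
    rw [h1]; linarith
  have hF : A * (C ^ 2 * (1 + Real.log C)) ≤ 64 * 4 * A * x := by
    have hCp : C ^ 2 = 64 * 2 ^ (2 * ρ) := by
      rw [hC', mul_pow, ← pow_mul, mul_comm ρ 2]; norm_num
    calc A * (C ^ 2 * (1 + Real.log C)) ≤ A * (C ^ 2 * (4 * (ρ + 2))) :=
          mul_le_mul_of_nonneg_left (mul_le_mul_of_nonneg_left hlogC (by positivity)) hA
      _ = _ := by rw [hCp, hx]; ring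
  classical
  obtain ⟨X, hX⟩ : ∃ X : Finset ℕ, X = (Finset.Ico (J / 2) J).filter
    (fun j => DepR b ξ 4 C (2 ^ (j - (ρ + 2)))) := ⟨_, rfl⟩
  have hXc : (X.card : ℝ) ≤ A * (C ^ 2 * (1 + Real.log C)) := by
    apply W3.exc_card (hthin C hC1) (ρ + 2)
    intro j hj
    rw [hX] at hj
    obtain ⟨h1, h2⟩ := Finset.mem_filter.mp hj
    rw [Finset.mem_Ico] at h1
    exact ⟨by omega, h2⟩
  have hX4 : 4 * X.card ≤ J := by
    have h1 : ((4 * X.card : ℕ) : ℝ) ≤ J := by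
      push_cast
      have h2 : (4 * (64 * 4 * A) + 16) * x = 4 * (64 * 4 * A * x) + 16 * x := by ring
      rw [h2] at hJ
      linarith
    exact_mod_cast h1
  obtain ⟨Er, hEr⟩ : ∃ Er, Er = {t ∈ Finset.range N | v t ≠ (dg b ξ (t + 1) : ℝ)} := ⟨_, rfl⟩
  rw [← hEr, ← hJd]
  have hsum := sum_scales ρ N hN0 X B Er (by
    intro j hj hjX
    rw [← hJd] at hj
    have hj' := Finset.mem_Ico.mp hj
    have hj1 : 2 ^ (j + 1) ≤ N := by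
      refine le_trans ?_ hJN
      exact Nat.pow_le_pow_right (by norm_num) (by omega)
    have h1 := loc_err b ξ ρ j (by omega) v B (fun s e hs1 hse he hno =>
      hB s e hs1 hse (he.trans hj1) hno) (by
        intro hcon
        apply hjX
        rw [hX, Finset.mem_filter]
        refine ⟨hj, ?_⟩
        rw [show j - (ρ + 2) = j - ρ - 2 by omega, hC]
        exact hcon)
    refine h1.trans (Nat.mul_le_mul_left _ (Nat.add_le_add_left ?_ _))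
    apply Finset.card_le_card
    intro t ht
    obtain ⟨h2, h3⟩ := Finset.mem_filter.mp ht
    rw [Finset.mem_Ico] at h2
    rw [Finset.mem_filter, hEr, Finset.mem_filter, Finset.mem_range]
    exact ⟨⟨by omega, h3⟩, h2⟩)
  rw [← hJd] at hsum
  have h1 : J ≤ 4 * (J - J / 2 - X.card) := by omega
  have h2 : (J - J / 2 - X.card) * 2 ^ ρ ≤ 8 * (#B + (ρ + 2) * #Er) := by
    rw [Nat.sub_mul]
    omega
  calc 2 ^ ρ * J = J * 2 ^ ρ := Nat.mul_comm _ _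
    _ ≤ (4 * (J - J / 2 - X.card)) * 2 ^ ρ := Nat.mul_le_mul_right _ h1
    _ = 4 * ((J - J / 2 - X.card) * 2 ^ ρ) := by ring
    _ ≤ 4 * (8 * (#B + (ρ + 2) * #Er)) := Nat.mul_le_mul_left _ h2
    _ ≤ 4 * (8 * (2 * z + (ρ + 2) * #Er)) := by
        apply Nat.mul_le_mul_left; apply Nat.mul_le_mul_left; omega
    _ ≤ 64 * ((ρ + 2) * (z + #Er)) := by
        have h5 : z ≤ (ρ + 2) * z := Nat.le_mul_of_pos_left _ (by omega)
        nlinarith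

/-- in the form of `rate_c` -/
theorem main_e' (A : ℝ) (hA : 0 ≤ A) :
    ∃ A' : ℝ, ∀ (b : ℕ) (ξ : ℝ),
      (∀ C : ℝ, 1 ≤ C → Thin (DepR b ξ 4 C) (A * (C ^ 2 * (1 + Real.log C)))) →
      ∀ (N z : ℕ) (v : ℕ → ℝ), Brk Cp1 v N z →
      ∀ ρ : ℕ, A' * (2 ^ (2 * ρ) * ((ρ : ℝ) + 2) ^ 3) ≤ Nat.log 2 N →
        2 ^ ρ * Nat.log 2 N ≤ 8 *
          (z + #{t ∈ Finset.range N | v t ≠ (dg b ξ (t + 1) : ℝ)}) := by
  obtain ⟨A', h⟩ := main_e A hA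
  refine ⟨max A' 0 * 81920, ?_⟩
  intro b ξ hthin N z v hBrk ρ hJ
  obtain ⟨Z, hZ⟩ : ∃ Z, Z = z + #{t ∈ Finset.range N | v t ≠ (dg b ξ (t + 1) : ℝ)} := ⟨_, rfl⟩
  obtain ⟨J, hJd⟩ : ∃ J, J = Nat.log 2 N := ⟨_, rfl⟩
  rw [← hZ, ← hJd]
  rw [← hJd] at hJ
  obtain ⟨l, hl⟩ : ∃ l, l = Nat.clog 2 (ρ + 2) := ⟨_, rfl⟩
  have hl1 : ρ + 2 ≤ 2 ^ l := by rw [hl]; exact Nat.le_pow_clog (by norm_num) _
  have hl0 : 1 ≤ l := by
    by_contra hcon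
    have : l = 0 := by omega
    rw [this] at hl1
    omega
  have hl2 : 2 ^ (l - 1) < ρ + 2 := by
    have h1 := Nat.pow_pred_clog_lt_self (b := 2) (by norm_num) (x := ρ + 2) (by omega)
    rw [Nat.pred_eq_sub_one] at h1
    rw [hl]
    exact h1
  have hl3 : 2 ^ l ≤ 2 * (ρ + 2) := by
    have : 2 ^ l = 2 * 2 ^ (l - 1) := by
      rw [← pow_succ']; congr 1; omega
    omega
  have hl4 : l ≤ ρ + 2 := by
    have h1 : l - 1 < 2 ^ (l - 1) := Nat.lt_two_pow_self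
    omega
  obtain ⟨k, hk⟩ : ∃ k, k = l + 6 := ⟨_, rfl⟩
  have hk1 : 2 ^ k = 64 * 2 ^ l := by rw [hk, pow_add]; ring
  have hr2 : ρ + k + 2 ≤ 5 * (ρ + 2) := by omega
  have h8 : 8 * (ρ + k + 2) ≤ 2 ^ k := by omega
  have hkR : (2 : ℝ) ^ k ≤ 128 * ((ρ : ℝ) + 2) := by
    have : 2 ^ k ≤ 128 * (ρ + 2) := by omega
    exact_mod_cast this
  have hr2R : (((ρ + k : ℕ) : ℝ) + 2) ≤ 5 * ((ρ : ℝ) + 2) := by exact_mod_cast hr2
  have hρ0 : (0 : ℝ) ≤ ρ := Nat.cast_nonneg _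
  have hmain := h b ξ hthin N z v hBrk (ρ + k) (by
    rw [← hJd]
    refine le_trans ?_ hJ
    have h1 : (2 : ℝ) ^ (2 * (ρ + k)) = 2 ^ (2 * ρ) * (2 ^ k) ^ 2 := by
      rw [← pow_mul, ← pow_add]; congr 1; ring
    have h2 : ((2 : ℝ) ^ k) ^ 2 ≤ (128 * ((ρ : ℝ) + 2)) ^ 2 :=
      pow_le_pow_left₀ (by positivity) hkR 2
    have h3 : (2 : ℝ) ^ (2 * (ρ + k)) * (((ρ + k : ℕ) : ℝ) + 2) ≤
        81920 * (2 ^ (2 * ρ) * ((ρ : ℝ) + 2) ^ 3) := by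
      calc (2 : ℝ) ^ (2 * (ρ + k)) * (((ρ + k : ℕ) : ℝ) + 2) ≤
            (2 ^ (2 * ρ) * (128 * ((ρ : ℝ) + 2)) ^ 2) * (5 * ((ρ : ℝ) + 2)) := by
            rw [h1]
            exact mul_le_mul (mul_le_mul_of_nonneg_left h2 (by positivity)) hr2R (by positivity)
              (by positivity)
        _ = _ := by ring
    calc A' * (2 ^ (2 * (ρ + k)) * (((ρ + k : ℕ) : ℝ) + 2)) ≤
          max A' 0 * (2 ^ (2 * (ρ + k)) * (((ρ + k : ℕ) : ℝ) + 2)) :=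
          mul_le_mul_of_nonneg_right (le_max_left _ _) (by positivity)
      _ ≤ max A' 0 * (81920 * (2 ^ (2 * ρ) * ((ρ : ℝ) + 2) ^ 3)) :=
          mul_le_mul_of_nonneg_left h3 (le_max_right _ _)
      _ = _ := by ring)
  rw [← hZ, ← hJd] at hmain
  have h9 : 2 ^ k * (2 ^ ρ * J) ≤ 2 ^ k * (8 * Z) := by
    calc 2 ^ k * (2 ^ ρ * J) = 2 ^ (ρ + k) * J := by rw [pow_add]; ring
      _ ≤ 64 * ((ρ + k + 2) * Z) := hmain
      _ = 8 * (8 * (ρ + k + 2)) * Z := by ring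
      _ ≤ 8 * 2 ^ k * Z := Nat.mul_le_mul_right _ (Nat.mul_le_mul_left _ h8)
      _ = 2 ^ k * (8 * Z) := by ring
  exact Nat.le_of_mul_le_mul_left h9 (by positivity)

/-- affine copies of one window, with errors -/
theorem finE1 (ξ : ℝ) (hξ : IsAlgebraic ℚ ξ) (hirr : Irrational ξ) :
    ∃ c : ℝ, 0 < c ∧ ∃ N₀ : ℕ, ∀ b : ℕ, 2 ≤ b → ∀ N ≥ N₀, ∀ (v : ℕ → ℝ) (z : ℕ),
      Produces 1 v N z →
      c * (Real.log N ^ (3 / 2 : ℝ) / Real.log (Real.log N) ^ (3 / 2 : ℝ)) ≤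
        ((z + #{t ∈ Finset.range N | v t ≠ (dg b ξ (t + 1) : ℝ)} : ℕ) : ℝ) := by
  obtain ⟨A, hA, hthin⟩ := thinR 4 ξ hξ hirr
  obtain ⟨A', h⟩ := main_e' A hA
  obtain ⟨c, hc, N₀, hr⟩ := rate_c 2 3 (by norm_num) A'
  have e1 : (1 : ℝ) + 1 / ((2 : ℕ) : ℝ) = 3 / 2 := by norm_num
  have e2 : ((3 : ℕ) : ℝ) / ((2 : ℕ) : ℝ) = 3 / 2 := by norm_num
  rw [e1, e2] at hr
  refine ⟨c, hc, N₀, fun b hb N hN v z hP => hr N hN _ (fun ρ hρ => ?_)⟩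
  exact h b ξ (fun C hC => hthin b hb C hC) N z v (brk1 hP) ρ hρ

end Pool.Agent.H723.QE
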